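import Mathlib

/-! # Degrees over an abelian extension -/

set_option autoImplicit false
set_option linter.all false

open Polynomial Module IntermediateField

namespace Pool.Agent.U218.ED

section general

variable {L Ω : Type*} [Field L] [CharZero L] [Field Ω] [Algebra L Ω] [IsAlgClosed Ω]
  [Algebra.IsAlgebraic L Ω] [Normal L Ω]

/-- the degree over `L` is at most the degree over `T` times the degree of the intersection -/
theorem degree_le_inf (T : IntermediateField L Ω) [Normal L T] (α : Ω) :
    (minpoly L α).natDegree ≤
      finrank L (↥(L⟮α⟯ ⊓ T)) * (minpoly T α).natDegree := by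
  set N : IntermediateField L Ω := L⟮α⟯ with hN
  have hα : α ∈ N := mem_adjoin_simple_self L α
  set M : IntermediateField L Ω := N ⊓ T with hM
  have hαL : IsIntegral L α := (Algebra.IsAlgebraic.isAlgebraic α).isIntegral
  have hαT : IsIntegral T α := hαL.tower_top
  have hαM : IsIntegral M α := hαL.tower_top
  haveI : FiniteDimensional L N := adjoin.finiteDimensional hαL
  haveI : FiniteDimensional L M := FiniteDimensional.of_injective
    (IntermediateField.inclusion (inf_le_left : M ≤ N)).toLinearMap
    (IntermediateField.inclusion (inf_le_left : M ≤ N)).injective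
  -- the degree over `M`
  have h2 : (minpoly L α).natDegree ≤ finrank L M * (minpoly M α).natDegree := by
    haveI : FiniteDimensional M M⟮α⟯ := adjoin.finiteDimensional hαM
    haveI : FiniteDimensional L M⟮α⟯ := FiniteDimensional.trans L M M⟮α⟯
    haveI : IsScalarTower L M⟮α⟯ Ω := IsScalarTower.of_algebraMap_eq fun x => rfl
    have e1 : minpoly L (AdjoinSimple.gen M α) = minpoly L α := by
      have h6 : algebraMap M⟮α⟯ Ω (AdjoinSimple.gen M α) = α := AdjoinSimple.algebraMap_gen M α
      conv_rhs => rw [← h6]
      exact (minpoly.algebraMap_eq (algebraMap M⟮α⟯ Ω).injective _).symm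
    rw [← e1, ← adjoin.finrank hαM, Module.finrank_mul_finrank]
    exact minpoly.natDegree_le _
  haveI : IsGalois L Ω := ⟨⟩
  -- the minimal polynomial over `T` has coefficients in `M`
  have h3 : (minpoly M α).natDegree ≤ (minpoly T α).natDegree := by
    set q : Polynomial Ω := (minpoly T α).map (algebraMap T Ω) with hq
    have hqm : q.Monic := (minpoly.monic hαT).map _
    have hfix : ∀ σ : Ω ≃ₐ[L] Ω, σ α = α → ∀ i, σ (q.coeff i) = q.coeff i := by
      intro σ hσ
      -- the conjugate polynomial over `T`
      have hσT : ∀ x : T, σ (x : Ω) ∈ T := fun x =>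
        (normal_iff_forall_map_le'.mp (inferInstance : Normal L T) σ) ⟨x, x.2, rfl⟩
      let f : T →+* T :=
        { toFun := fun x => ⟨σ x, hσT x⟩
          map_one' := Subtype.ext (map_one σ)
          map_mul' := fun x y => Subtype.ext (map_mul σ _ _)
          map_zero' := Subtype.ext (map_zero σ)
          map_add' := fun x y => Subtype.ext (map_add σ _ _) }
      have hf : (algebraMap T Ω).comp f = (σ : Ω →+* Ω).comp (algebraMap T Ω) := rfl
      have h4 : aeval α ((minpoly T α).map f) = 0 := by
        rw [← eval_map_algebraMap, Polynomial.map_map, hf, ← Polynomial.map_map]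
        have h5 : eval (σ α) (((minpoly T α).map (algebraMap T Ω)).map (σ : Ω →+* Ω)) = 0 := by
          have := Polynomial.eval_map_apply (σ : Ω →+* Ω) α
            (p := (minpoly T α).map (algebraMap T Ω))
          have h7 : eval α ((minpoly T α).map (algebraMap T Ω)) = 0 := by
            rw [eval_map_algebraMap, minpoly.aeval]
          rw [h7, map_zero] at this
          exact this
        rwa [hσ] at h5
      have h8 : minpoly T α ∣ (minpoly T α).map f := minpoly.dvd T α h4
      have h9 : (minpoly T α).map f = minpoly T α := by
        apply eq_of_monic_of_dvd_of_natDegree_le (minpoly.monic hαT)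
          ((minpoly.monic hαT).map f) h8
        rw [natDegree_map]
      intro i
      have h10 : ((minpoly T α).map f).coeff i = (minpoly T α).coeff i := by rw [h9]
      rw [coeff_map] at h10
      rw [hq, coeff_map]
      exact congrArg (fun x : T => (x : Ω)) h10
    have hcoef : ∀ i, q.coeff i ∈ M := by
      intro i
      refine ⟨?_, ?_⟩
      · have h11 : N.fixingSubgroup ≤ N.fixingSubgroup := le_rfl
        have h12 : fixedField N.fixingSubgroup = N := InfiniteGalois.fixedField_fixingSubgroup N
        rw [← h12]
        rintro ⟨σ, hσ⟩
        exact hfix σ (hσ ⟨α, hα⟩) i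
      · rw [hq, coeff_map]
        exact ((minpoly T α).coeff i).2
    obtain ⟨p, hp⟩ : ∃ p : Polynomial M, p.map (algebraMap M Ω) = q := by
      have : q ∈ Polynomial.lifts (algebraMap M Ω) :=
        (Polynomial.lifts_iff_coeff_lifts q).mpr fun i => ⟨⟨q.coeff i, hcoef i⟩, rfl⟩
      exact (Polynomial.mem_lifts q).mp this
    have hp0 : aeval α p = 0 := by
      rw [← eval_map_algebraMap, hp, hq, eval_map_algebraMap, minpoly.aeval]
    have hpne : p ≠ 0 := by
      rintro rfl
      rw [Polynomial.map_zero] at hp
      exact hqm.ne_zero hp.symm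
    have h4 := natDegree_le_of_dvd (minpoly.dvd M α hp0) hpne
    have h5 : p.natDegree = (minpoly T α).natDegree := by
      rw [← natDegree_map (algebraMap M Ω), hp, hq, natDegree_map]
    rwa [h5] at h4
  exact h2.trans (Nat.mul_le_mul_left _ h3)

end general

end Pool.Agent.U218.ED
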